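import Pool.Agent.Lib.MP_a761b9_al.Closed

set_option autoImplicit false

namespace Pool.Agent.Results.MP_a761b9_al.TreeGroups

open Topology Pool.Agent.Lib.MP_a761b9_al
open scoped Pointwise

universe u

/-- For every finite alphabet `A` with at least two letters, the automorphism group of the rooted
`A`-regular tree, with the topology of pointwise convergence on the boundary seen as a discrete set,
is a Hausdorff topological group which injects continuously in a compact Hausdorff group, is not
compact, is not even `ω`-narrow, and has closed image under every continuous homomorphism to a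
Hausdorff topological group: such a homomorphism is a closed embedding or has compact image. -/
theorem result (A : Type) [Finite A] [Nontrivial A] :
    IsTopologicalGroup (TreeGroup A) ∧ T2Space (TreeGroup A) ∧
    (∃ (K : Type) (_ : Group K) (_ : TopologicalSpace K) (_ : IsTopologicalGroup K)
      (_ : CompactSpace K) (_ : T2Space K) (f : TreeGroup A →* K),
      Continuous f ∧ Function.Injective f) ∧
    ¬ CompactSpace (TreeGroup A) ∧
    (∃ U ∈ 𝓝 (1 : TreeGroup A), ∀ C : Set (TreeGroup A), C.Countable → C * U ≠ Set.univ) ∧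
    ∀ (Y : Type u) [Group Y] [TopologicalSpace Y] [IsTopologicalGroup Y] [T2Space Y]
      (f : TreeGroup A →* Y), Continuous f →
        IsClosed (Set.range f) ∧ (IsClosedEmbedding f ∨ IsCompact (Set.range f)) := by
  obtain ⟨x⟩ : Nonempty A := inferInstance
  have hn : ∀ C : Set (TreeGroup A), C.Countable →
      C * (pointStab (fun _ => x : ℕ → A) : Set (TreeGroup A)) ≠ Set.univ := by
    intro C hC h
    obtain ⟨g, hg⟩ := not_narrow (fun _ => x : ℕ → A) C hC
    have h1 : g ∈ C * (pointStab (fun _ => x : ℕ → A) : Set (TreeGroup A)) := by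
      rw [h]; exact Set.mem_univ g
    obtain ⟨c, hc, s, hs, hcs⟩ := Set.mem_mul.1 h1
    exact hg c hc s hs hcs.symm
  have ho := isOpen_pointStab (fun _ => x : ℕ → A)
  refine ⟨inferInstance, inferInstance, ?_, ?_, ?_, ?_⟩
  · exact ⟨Prof A, inferInstance, topProf A, prof_facts.1, prof_facts.2.1, prof_facts.2.2,
      toProf x, toProf_continuous x, toProf_injective x⟩
  · intro hc
    have hcov : (Set.univ : Set (TreeGroup A)) ⊆ ⋃ g : TreeGroup A,
        (fun h : TreeGroup A => g⁻¹ * h) ⁻¹'
          (pointStab (fun _ => x : ℕ → A) : Set (TreeGroup A)) := by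
      intro g _
      refine Set.mem_iUnion.2 ⟨g, ?_⟩
      change g⁻¹ * g ∈ (pointStab (fun _ => x : ℕ → A) : Set (TreeGroup A))
      rw [inv_mul_cancel]
      exact one_mem (pointStab (fun _ => x : ℕ → A))
    obtain ⟨t, ht⟩ := isCompact_univ.elim_finite_subcover _
      (fun g => ho.preimage (continuous_const_mul g⁻¹)) hcov
    apply hn (t : Set (TreeGroup A)) t.countable_toSet
    apply Set.eq_univ_of_forall
    intro h
    obtain ⟨g, hg⟩ := Set.mem_iUnion.1 (ht (Set.mem_univ h))
    obtain ⟨hgt, hgh⟩ := Set.mem_iUnion.1 hg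
    exact Set.mem_mul.2 ⟨g, hgt, g⁻¹ * h, hgh, by group⟩
  · exact ⟨_, ho.mem_nhds (one_mem (pointStab (fun _ => x : ℕ → A))), hn⟩
  · intro Y _ _ _ _ f hf
    have h := closedEmbedding_or_compact f hf
    refine ⟨?_, h⟩
    rcases h with h | h
    · exact h.isClosed_range
    · exact h.isClosed

end Pool.Agent.Results.MP_a761b9_al.TreeGroups
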